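import Pool.Agent.Helper35.CWS.StA

/-!
# Project CWS, module TRA: transport along an open embedding
-/

set_option autoImplicit false

namespace Pool.Agent.Helper89.CWS

open Set Topology Metric Pool.Agent.Helper35.CWS

/-- TRA: transport of a local semiflow along an open embedding of an open subset -/
theorem hTRA : StTRA := by
  classical
  intro X Y _ _ U f x hx W ε Φ hU hf hW hxW hSF hne
  have hNe : Nonempty U := ⟨⟨x, hx⟩⟩
  let e := hf.toOpenPartialHomeomorph f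
  have he1 : ∀ u : U, e.symm (f u) = u := fun u => IsOpenEmbedding.toOpenPartialHomeomorph_left_inv f hf
  have he2 : ∀ y ∈ range f, f (e.symm y) = y := fun y hy => IsOpenEmbedding.toOpenPartialHomeomorph_right_inv f hf hy
  have he3 : ContinuousOn e.symm (range f) := by
    have := e.continuousOn_symm
    have ht : e.target = range f := hf.toOpenPartialHomeomorph_target f
    rwa [ht] at this
  let F : X → Y := fun x' => if h : x' ∈ U then f ⟨x', h⟩ else f ⟨x, hx⟩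
  have hF : ∀ (x' : X) (h : x' ∈ U), F x' = f ⟨x', h⟩ := fun x' h => by
    show (if h : x' ∈ U then f ⟨x', h⟩ else f ⟨x, hx⟩) = f ⟨x', h⟩
    rw [dif_pos h]
  have hFc : ContinuousOn F U := by
    rw [continuousOn_iff_continuous_domRestrict]
    have : U.domRestrict F = f := by
      funext u
      exact hF u.1 u.2
    rw [this]
    exact hf.continuous
  have hFu : ∀ u : U, F u.1 = f u := fun u => hF u.1 u.2
  have h0 : (0 : ℝ) ∈ Icc (0 : ℝ) ε := ⟨le_refl _, hSF.pos.le⟩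
  have hFx : F x = f ⟨x, hx⟩ := hF x hx
  have hR : IsOpen (range f) := hf.isOpen_range
  have hcw := hSF.cont (0, F x) ⟨h0, by rw [hFx]; exact hxW⟩
  have hmem : {p : ℝ × Y | Φ p.1 p.2 ∈ range f} ∈ 𝓝[Icc 0 ε ×ˢ W] ((0 : ℝ), F x) := by
    apply hcw
    apply hR.mem_nhds
    show Φ 0 (F x) ∈ range f
    rw [hFx, hSF.zero _ hxW]
    exact ⟨_, rfl⟩
  have hxW' : F x ∈ W := by rw [hFx]; exact hxW
  rw [nhdsWithin_prod_eq, hW.nhdsWithin_eq hxW', Filter.mem_prod_iff] at hmem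
  obtain ⟨T, hT, W1, hW1, hTW⟩ := hmem
  obtain ⟨r, hr, hrT⟩ := Metric.mem_nhdsWithin_iff.1 hT
  let δ : ℝ := min ε (r / 2)
  have hδ : 0 < δ := lt_min hSF.pos (half_pos hr)
  have hδε : δ ≤ ε := min_le_left _ _
  have hδT : ∀ s ∈ Icc (0 : ℝ) δ, s ∈ T := by
    intro s hs
    apply hrT
    refine ⟨?_, hs.1, hs.2.trans hδε⟩
    rw [mem_ball, Real.dist_eq, sub_zero, abs_of_nonneg hs.1]
    have := hs.2.trans (min_le_right ε (r / 2))
    linarith
  let W0 : Set Y := interior W1 ∩ W ∩ range f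
  have hW0o : IsOpen W0 := (isOpen_interior.inter hW).inter hR
  have hW0x : F x ∈ W0 := ⟨⟨mem_interior_iff_mem_nhds.2 hW1, hxW'⟩, by rw [hFx]; exact ⟨_, rfl⟩⟩
  have hr0 : ∀ s ∈ Icc (0 : ℝ) δ, ∀ y ∈ W0, Φ s y ∈ range f := by
    intro s hs y hy
    exact hTW (show (s, y) ∈ T ×ˢ W1 from ⟨hδT s hs, interior_subset hy.1.1⟩)
  let N : Set X := U ∩ F ⁻¹' W0
  have hN : IsOpen N := hFc.isOpen_inter_preimage hU hW0o
  let Θ : ℝ → X → X := fun s x' => (e.symm (Φ s (F x'))).1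
  have hΘF : ∀ s ∈ Icc (0 : ℝ) δ, ∀ y ∈ N, F (Θ s y) = Φ s (F y) := by
    intro s hs y hy
    show F (e.symm (Φ s (F y))).1 = Φ s (F y)
    rw [hFu, he2 _ (hr0 s hs _ hy.2)]
  refine ⟨N, δ, Θ, hN, ⟨hx, hW0x⟩, ⟨subset_univ _, hδ, ?_, fun _ _ _ _ => mem_univ _, ?_, ?_⟩, ?_⟩
  · have h1 : ContinuousOn (fun p : ℝ × X => ((p.1, F p.2) : ℝ × Y)) (Icc 0 δ ×ˢ N) := by
      apply ContinuousOn.prodMk continuous_fst.continuousOn
      exact hFc.comp continuous_snd.continuousOn (fun p hp => hp.2.1)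
    have h2 : ContinuousOn (fun p : ℝ × X => Φ p.1 (F p.2)) (Icc 0 δ ×ˢ N) :=
      hSF.cont.comp h1 (fun p hp => ⟨⟨hp.1.1, hp.1.2.trans hδε⟩, hp.2.2.1.2⟩)
    have h3 : ContinuousOn (fun p : ℝ × X => e.symm (Φ p.1 (F p.2))) (Icc 0 δ ×ˢ N) :=
      he3.comp h2 (fun p hp => hr0 p.1 hp.1 _ hp.2.2)
    exact continuous_subtype_val.comp_continuousOn h3
  · intro y hy
    show (e.symm (Φ 0 (F y))).1 = y
    rw [hSF.zero _ hy.2.1.2, hF y hy.1, he1]
  · intro y hy s s' hs hs' hss hN'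
    have hsI : s' ∈ Icc (0 : ℝ) δ := ⟨hs', by linarith⟩
    have hk := hΘF s' hsI y hy
    have hW' : Φ s' (F y) ∈ W := by
      rw [← hk]
      exact hN'.2.1.2
    show (e.symm (Φ (s + s') (F y))).1 = (e.symm (Φ s (F (Θ s' y)))).1
    rw [hk, hSF.add _ hy.2.1.2 s s' hs hs' (hss.trans hδε) hW']
  · intro s hs hcon
    have hsI : s ∈ Icc (0 : ℝ) δ := ⟨hs.1.le, hs.2⟩
    have hk := hΘF s hsI x ⟨hx, hW0x⟩
    rw [hcon, hFx] at hk
    exact hne s ⟨hs.1, hs.2.trans hδε⟩ hk.symm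

end Pool.Agent.Helper89.CWS
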